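import Pool.Agent.W262.TW.Stm2

set_option autoImplicit false

/-! # TW-FINS: the final estimate -/

namespace Pool.Agent.W460.TW

open Finset Filter Pool.Agent.W262.RK Pool.Agent.W262.TW

/-- growth facts in `L = log X` -/
theorem growthL (b : ℝ) (N : ℕ) (C4 : ℝ) (hb : 1 ≤ b) : ∀ᶠ L : ℝ in atTop,
    Real.exp (C4 * (1 + Real.log (b * Real.log L))) ≤ L ^ (1 / 100 : ℝ) ∧
    (1 + b * Real.log L) ^ N ≤ L ^ (1 / 100 : ℝ) := by
  have hb0 : 0 < b := by linarith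
  set c1 : ℝ := Real.exp C4 * b ^ C4 with hc1
  have hc1p : 0 < c1 := mul_pos (Real.exp_pos _) (Real.rpow_pos_of_pos hb0 _)
  have e1 := (isLittleO_log_rpow_rpow_atTop C4 (by norm_num : (0 : ℝ) < 1 / 100)).def
    (inv_pos.mpr hc1p)
  set c2 : ℝ := (b + 1) ^ N with hc2
  have hc2p : 0 < c2 := by positivity
  have e2 := (isLittleO_log_rpow_rpow_atTop (N : ℝ) (by norm_num : (0 : ℝ) < 1 / 100)).def
    (inv_pos.mpr hc2p)
  have e3 : ∀ᶠ L : ℝ in atTop, Real.exp 1 ≤ L := eventually_ge_atTop _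
  filter_upwards [e1, e2, e3] with L h1 h2 h3
  have hL0 : 0 < L := (Real.exp_pos 1).trans_le h3
  have hlog : 1 ≤ Real.log L := by
    rw [← Real.log_exp 1]
    exact Real.log_le_log (Real.exp_pos 1) h3
  have hlog0 : 0 < Real.log L := by linarith
  have hLp : 0 < L ^ (1 / 100 : ℝ) := Real.rpow_pos_of_pos hL0 _
  constructor
  · rw [Real.norm_of_nonneg (Real.rpow_nonneg hlog0.le _), Real.norm_of_nonneg hLp.le] at h1
    have h4 : Real.exp (C4 * (1 + Real.log (b * Real.log L))) = c1 * Real.log L ^ C4 := by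
      rw [mul_add, mul_one, Real.exp_add, hc1, mul_assoc, ← Real.mul_rpow hb0.le hlog0.le,
        Real.rpow_def_of_pos (mul_pos hb0 hlog0), mul_comm C4 (Real.log _)]
    rw [h4]
    calc c1 * Real.log L ^ C4 ≤ c1 * (c1⁻¹ * L ^ (1 / 100 : ℝ)) :=
          mul_le_mul_of_nonneg_left h1 hc1p.le
      _ = L ^ (1 / 100 : ℝ) := by rw [← mul_assoc, mul_inv_cancel₀ hc1p.ne', one_mul]
  · rw [Real.norm_of_nonneg (Real.rpow_nonneg hlog0.le _), Real.norm_of_nonneg hLp.le,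
      Real.rpow_natCast] at h2
    calc (1 + b * Real.log L) ^ N ≤ ((b + 1) * Real.log L) ^ N := by
          apply pow_le_pow_left₀ (by positivity)
          nlinarith
      _ = c2 * Real.log L ^ N := by rw [mul_pow]
      _ ≤ c2 * (c2⁻¹ * L ^ (1 / 100 : ℝ)) := mul_le_mul_of_nonneg_left h2 hc2p.le
      _ = L ^ (1 / 100 : ℝ) := by rw [← mul_assoc, mul_inv_cancel₀ hc2p.ne', one_mul]

/-- growth facts in `X` -/
theorem growthX (B N : ℕ) : ∀ᶠ X : ℝ in atTop,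
    (2 * (Real.log X) ^ B) ^ N ≤ X ^ (1 / 2 : ℝ) ∧
    X ^ (1 / 3 : ℝ) ≤ X ^ (1 / 2 : ℝ) - 1 ∧ 4 ≤ X ^ (1 / 2 : ℝ) ∧
    X ^ (1 / 2 : ℝ) ≤ X * (Real.log X) ^ (-(1 / 5 : ℝ)) := by
  have e1 := (isLittleO_log_rpow_rpow_atTop ((B * N : ℕ) : ℝ) (by norm_num : (0 : ℝ) < 1 / 2)).def
    (inv_pos.mpr (by positivity : (0 : ℝ) < 2 ^ N))
  have e2 := (isLittleO_log_rpow_rpow_atTop (1 / 5 : ℝ) (by norm_num : (0 : ℝ) < 1 / 2)).def
    one_pos
  have e3 : ∀ᶠ X : ℝ in atTop, (64 : ℝ) ≤ X := eventually_ge_atTop _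
  filter_upwards [e1, e2, e3] with X h1 h2 h3
  have hX0 : 0 < X := by linarith
  have hlog0 : 0 < Real.log X := Real.log_pos (by linarith)
  have hXp : 0 < X ^ (1 / 2 : ℝ) := Real.rpow_pos_of_pos hX0 _
  -- sixth root
  set t := X ^ (1 / 6 : ℝ) with ht
  have ht0 : 0 < t := Real.rpow_pos_of_pos hX0 _
  have ht2 : 2 ≤ t := by
    have : (2 : ℝ) = (64 : ℝ) ^ (1 / 6 : ℝ) := by
      rw [show (64 : ℝ) = 2 ^ (6 : ℝ) by norm_num, ← Real.rpow_mul (by norm_num)]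
      norm_num
    rw [this, ht]
    exact Real.rpow_le_rpow (by norm_num) h3 (by norm_num)
  have h12 : X ^ (1 / 2 : ℝ) = t ^ 3 := by
    rw [ht, ← Real.rpow_natCast, ← Real.rpow_mul hX0.le]
    norm_num
  have h13 : X ^ (1 / 3 : ℝ) = t ^ 2 := by
    rw [ht, ← Real.rpow_natCast, ← Real.rpow_mul hX0.le]
    norm_num
  refine ⟨?_, ?_, ?_, ?_⟩
  · rw [Real.norm_of_nonneg (Real.rpow_nonneg hlog0.le _), Real.norm_of_nonneg hXp.le,
      Real.rpow_natCast] at h1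
    calc (2 * (Real.log X) ^ B) ^ N = 2 ^ N * Real.log X ^ (B * N) := by rw [mul_pow, ← pow_mul]
      _ ≤ 2 ^ N * ((2 ^ N)⁻¹ * X ^ (1 / 2 : ℝ)) := mul_le_mul_of_nonneg_left h1 (by positivity)
      _ = X ^ (1 / 2 : ℝ) := by
        rw [← mul_assoc, mul_inv_cancel₀ (by positivity), one_mul]
  · rw [h12, h13]
    nlinarith [sq_nonneg (t - 2)]
  · rw [h12]
    nlinarith [sq_nonneg (t - 2)]
  · rw [Real.norm_of_nonneg (Real.rpow_nonneg hlog0.le _), Real.norm_of_nonneg hXp.le, one_mul] at h2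
    have h4 : 0 < Real.log X ^ (1 / 5 : ℝ) := Real.rpow_pos_of_pos hlog0 _
    rw [Real.rpow_neg hlog0.le, ← div_eq_mul_inv, le_div_iff₀ h4]
    calc X ^ (1 / 2 : ℝ) * Real.log X ^ (1 / 5 : ℝ) ≤ X ^ (1 / 2 : ℝ) * X ^ (1 / 2 : ℝ) :=
          mul_le_mul_of_nonneg_left h2 hXp.le
      _ = X := by
        rw [← Real.rpow_add hX0]
        norm_num

section K

variable {K : Type} [Fintype K] [DecidableEq K]

theorem EE_prime {z : ℕ} {e : ℤ} (he : e ∈ EE z) (p : ℕ) (hp : p.Prime) (h : (p : ℤ) ∣ e) :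
    p ≤ z := by
  unfold EE at he
  rw [Finset.mem_union, Finset.mem_image, Finset.mem_image] at he
  rcases he with ⟨n, hn, rfl⟩ | ⟨n, hn, rfl⟩
  · have h1 : p ∣ n := by exact_mod_cast h
    exact hp.dvd_primorial_iff.mp (h1.trans (Nat.dvd_of_mem_divisors hn))
  · have h1 : p ∣ n := by
      rw [dvd_neg] at h
      exact_mod_cast h
    exact hp.dvd_primorial_iff.mp (h1.trans (Nat.dvd_of_mem_divisors hn))

theorem ThI_sub (c : K → K → ℤ) (κ : K → ℤ) (u : K → ℕ) (I : Finset K) (i : {k // k ∈ I}) (p : ℕ) :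
    ThI c κ u I i p ⊆ (univ.erase i).powerset := by
  intro M hM
  unfold ThI at hM
  rw [Finset.mem_image] at hM
  obtain ⟨N, hN, rfl⟩ := hM
  rw [Finset.mem_filter] at hN
  have hiN : (i : K) ∉ N := by
    have h1 := hN.1
    unfold Ths at h1
    rw [Finset.mem_insert, Finset.mem_singleton] at h1
    rcases h1 with h1 | h1
    · rw [h1]
      unfold ngs
      simp
    · rw [h1]
      simp
  rw [Finset.mem_powerset]
  intro k hk
  rw [Finset.mem_subtype] at hk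
  rw [Finset.mem_erase]
  refine ⟨?_, Finset.mem_univ _⟩
  rintro rfl
  exact hiN hk

theorem UU_bounds {z V : ℕ} {c : K → K → ℤ} {κ : K → ℤ} {I : Finset K} {u : K → ℕ} (hV : 1 ≤ V)
    (hu : u ∈ UU z V c κ I) : (∀ k, 1 ≤ u k ∧ u k ≤ V) := by
  classical
  unfold UU at hu
  rw [Finset.mem_filter, Fintype.mem_piFinset] at hu
  intro k
  have h := hu.1 k
  split_ifs at h with hk
  · rw [Finset.mem_singleton] at h
    omega
  · rw [Finset.mem_Icc] at h
    exact h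

theorem harm_le (V : ℕ) (b L : ℝ) (hV : Real.log V ≤ b * Real.log L) :
    ∑ n ∈ Icc 1 V, ((n : ℝ))⁻¹ ≤ 1 + b * Real.log L := by
  have h1 := harmonic_le_one_add_log V
  rw [harmonic_eq_sum_Icc] at h1
  push_cast at h1
  linarith

theorem UU_sum {z V : ℕ} (c : K → K → ℤ) (κ : K → ℤ) (I : Finset K) (hV : 1 ≤ V) :
    ∑ u ∈ UU z V c κ I, ((∏ k, u k : ℕ) : ℝ)⁻¹ ≤
      (∑ n ∈ Icc 1 V, ((n : ℝ))⁻¹) ^ Fintype.card K := by
  classical
  have h1 : ∑ u ∈ UU z V c κ I, ((∏ k, u k : ℕ) : ℝ)⁻¹ ≤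
      ∑ u ∈ Fintype.piFinset (fun _ : K => Icc 1 V), ∏ k, ((u k : ℝ))⁻¹ := by
    have h2 : ∀ u : K → ℕ, ((∏ k, u k : ℕ) : ℝ)⁻¹ = ∏ k, ((u k : ℝ))⁻¹ := by
      intro u
      rw [Nat.cast_prod, Finset.prod_inv_distrib]
    simp only [h2]
    apply Finset.sum_le_sum_of_subset_of_nonneg
    · intro u hu
      rw [Fintype.mem_piFinset]
      intro k
      rw [Finset.mem_Icc]
      exact UU_bounds hV hu k
    · intro u _ _
      positivity
  refine h1.trans (le_of_eq ?_)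
  rw [← Finset.prod_univ_sum (fun _ : K => Icc 1 V) (fun _ n => ((n : ℝ))⁻¹), Finset.prod_const,
    Finset.card_univ]

theorem key (h1 : ABS1) (h3 : REGS) (c : K → K → ℤ) (z : ℕ) (hz : 2 ≤ z) (C4 : ℝ) (hC4 : 0 ≤ C4)
    (κ : K → ℤ) (hκ : κ ∈ Fintype.piFinset (fun _ : K => EE z))
    (hP : ∀ (Y V : ℕ) (I : Finset K), 3 ≤ Y → 1 ≤ V → I.Nonempty → ∀ u ∈ UU z V c κ I,
      ∑ i : {k // k ∈ I}, ∑ p ∈ PS z Y, ((ThI c κ u I i p).card : ℝ) / p ≤
        (3 / 4 * Real.log (Real.log Y) + C4 * (1 + Real.log (Real.log (V + 3)))) *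
          2 ^ (Fintype.card {k // k ∈ I} - 1)) :
    ∃ C : ℝ, 0 ≤ C ∧ ∀ᶠ X : ℕ in atTop,
      (cntS z X κ c : ℝ) ≤ C * X * (Real.log X) ^ (-(1 / 5 : ℝ)) := by
  classical
  choose Bf hBf using fun I : Finset K => h1 {k // k ∈ I} (1 / 100) (by norm_num)
  set B : ℕ := 1 + ∑ I, Bf I with hB
  have hBI : ∀ I, Bf I ≤ B := fun I => by
    have := Finset.single_le_sum (f := Bf) (fun _ _ => Nat.zero_le _) (Finset.mem_univ I)
    omega
  choose Cf hCf using fun I : Finset K => hBf I (B + 10)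
  set N := Fintype.card K with hN
  refine ⟨1 + 3 * ∑ I, |Cf I|, by positivity, ?_⟩
  have eL : ∀ᶠ X : ℕ in atTop, Real.exp (C4 * (1 + Real.log ((B + 2 : ℝ) *
      Real.log (Real.log X)))) ≤ (Real.log X) ^ (1 / 100 : ℝ) ∧
      (1 + (B + 2 : ℝ) * Real.log (Real.log X)) ^ N ≤ (Real.log X) ^ (1 / 100 : ℝ) := by
    have h := growthL (B + 2 : ℝ) N C4 (by
      have : (0 : ℝ) ≤ B := Nat.cast_nonneg B
      linarith)
    exact (Real.tendsto_log_atTop.comp tendsto_natCast_atTop_atTop).eventually h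
  have eX := tendsto_natCast_atTop_atTop.eventually (growthX B N)
  have e3 : ∀ᶠ X : ℕ in atTop, max 3 (2 * 3 ^ (B + 10)) ≤ Real.log (X : ℝ) :=
    (Real.tendsto_log_atTop.comp tendsto_natCast_atTop_atTop).eventually (eventually_ge_atTop _)
  filter_upwards [eL, eX, e3] with X hL hX h3L
  obtain ⟨hL1, hL2⟩ := hL
  obtain ⟨hX1, hX2, hX3, hX4⟩ := hX
  set L := Real.log (X : ℝ) with hLdef
  have hL3 : 3 ≤ L := (le_max_left _ _).trans h3L
  have hLbig : 2 * 3 ^ (B + 10) ≤ L := (le_max_right _ _).trans h3L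
  have hL0 : 0 < L := by linarith
  have hXpos : (0 : ℝ) < X := by
    by_contra h
    have : (X : ℝ) = 0 := le_antisymm (not_lt.mp h) (Nat.cast_nonneg X)
    rw [hLdef, this, Real.log_zero] at hL0
    exact lt_irrefl _ hL0
  set V : ℕ := ⌈L ^ B⌉₊ with hVdef
  have hLB1 : (1 : ℝ) ≤ L ^ B := one_le_pow₀ (by linarith)
  have hVge : L ^ B ≤ V := Nat.le_ceil _
  have hVle : (V : ℝ) ≤ 2 * L ^ B := by
    have := Nat.ceil_lt_add_one (a := L ^ B) (by positivity)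
    rw [← hVdef] at this
    linarith
  have hV1 : 1 ≤ V := by
    have : (1 : ℝ) ≤ V := hLB1.trans hVge
    exact_mod_cast this
  have hκp : ∀ k, ∀ p : ℕ, p.Prime → (p : ℤ) ∣ κ k → p ≤ z := fun k p hp h =>
    EE_prime (Fintype.mem_piFinset.mp hκ k) p hp h
  have hmain := h3 K z X V κ c hV1 hκp
  have hVN : ((V : ℝ)) ^ N ≤ (X : ℝ) ^ (1 / 2 : ℝ) :=
    (pow_le_pow_left₀ (Nat.cast_nonneg V) hVle N).trans hX1
  -- logarithm of `V + 3`
  have hV3 : Real.log ((V : ℝ) + 3) ≤ (B + 2 : ℝ) * Real.log L := by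
    have e1 : (V : ℝ) + 3 ≤ L ^ (B + 2) := by
      rw [pow_add]
      have a1 : (5 : ℝ) ≤ L ^ 2 := by nlinarith
      have a2 : L ^ B * 5 ≤ L ^ B * L ^ 2 := mul_le_mul_of_nonneg_left a1 (by positivity)
      linarith
    have e2 : Real.log (L ^ (B + 2)) = (B + 2 : ℝ) * Real.log L := by
      rw [Real.log_pow]
      push_cast
      ring
    rw [← e2]
    exact Real.log_le_log (by positivity) e1
  have hlogV3 : 0 < Real.log ((V : ℝ) + 3) := Real.log_pos (by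
    have : (0 : ℝ) ≤ V := Nat.cast_nonneg V
    linarith)
  have hlogV : Real.log (V : ℝ) ≤ (B + 2 : ℝ) * Real.log L := by
    refine le_trans (Real.log_le_log ?_ ?_) hV3
    · exact_mod_cast hV1
    · linarith
  have hEx : Real.exp (C4 * (1 + Real.log (Real.log ((V : ℝ) + 3)))) ≤ L ^ (1 / 100 : ℝ) := by
    refine le_trans (Real.exp_le_exp.mpr ?_) hL1
    apply mul_le_mul_of_nonneg_left _ hC4
    have := Real.log_le_log hlogV3 hV3
    linarith
  -- one term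
  have hterm : ∀ I : Finset K, I.Nonempty → ∀ u ∈ UU z V c κ I,
      (cnt z (X / ∏ k, u k) V (fun k : {k // k ∈ I} => κ k) (ThI c κ u I) : ℝ) ≤
        3 * |Cf I| * X * L ^ (-(23 / 100 : ℝ)) * ((∏ k, u k : ℕ) : ℝ)⁻¹ := by
    intro I hI u hu
    have hub := UU_bounds hV1 hu
    set U : ℕ := ∏ k, u k with hU
    have hU1 : 1 ≤ U := by
      rw [hU]
      exact Nat.succ_le_of_lt (Finset.prod_pos fun k _ => Nat.lt_of_succ_le (hub k).1)
    have hU0 : (0 : ℝ) < U := by exact_mod_cast hU1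
    have hUV : (U : ℝ) ≤ (V : ℝ) ^ N := by
      have : U ≤ V ^ N := by
        rw [hU, hN, ← Finset.card_univ, ← Finset.prod_const]
        exact Finset.prod_le_prod (fun _ _ => Nat.zero_le _) fun k _ => (hub k).2
      exact_mod_cast this
    set Y : ℕ := X / U with hY
    have hYle : (Y : ℝ) ≤ X / U := Nat.cast_div_le
    have hYge : (X : ℝ) / U ≤ Y + 1 := by
      rw [div_le_iff₀ hU0]
      have e1 : X < (X / U + 1) * U := Nat.lt_mul_of_div_lt (Nat.lt_succ_self _) hU1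
      have e2 : (X : ℝ) < ((X / U : ℕ) + 1) * U := by exact_mod_cast e1
      exact e2.le
    have hsq : (X : ℝ) ^ (1 / 2 : ℝ) ≤ X / U := by
      rw [le_div_iff₀ hU0]
      calc (X : ℝ) ^ (1 / 2 : ℝ) * U ≤ (X : ℝ) ^ (1 / 2 : ℝ) * (X : ℝ) ^ (1 / 2 : ℝ) := by
            apply mul_le_mul_of_nonneg_left (hUV.trans hVN) (Real.rpow_nonneg hXpos.le _)
        _ = X := by
          rw [← Real.rpow_add hXpos]
          norm_num
    have hY3 : 3 ≤ Y := by
      have : (3 : ℝ) ≤ Y := by linarith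
      exact_mod_cast this
    have hYX : (X : ℝ) ^ (1 / 3 : ℝ) ≤ Y := by linarith
    have hYpos : (0 : ℝ) < Y := by
      have : (3 : ℝ) ≤ Y := by exact_mod_cast hY3
      linarith
    have hYleX : (Y : ℝ) ≤ X := by
      refine hYle.trans (div_le_self hXpos.le ?_)
      exact_mod_cast hU1
    have hlogY1 : L / 3 ≤ Real.log Y := by
      have e1 := Real.log_le_log (Real.rpow_pos_of_pos hXpos _) hYX
      rw [Real.log_rpow hXpos, ← hLdef] at e1
      linarith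
    have hlogY2 : Real.log Y ≤ L := Real.log_le_log hYpos hYleX
    have hlogY0 : 1 ≤ Real.log Y := by linarith
    have hlogYp : 0 < Real.log Y := by linarith
    have hw0 : 0 ≤ 3 / 4 * Real.log (Real.log Y) + C4 * (1 + Real.log (Real.log ((V : ℝ) + 3))) := by
      have e1 : 0 ≤ Real.log (Real.log Y) := Real.log_nonneg hlogY0
      have e2 : 0 ≤ Real.log (Real.log ((V : ℝ) + 3)) := by
        apply Real.log_nonneg
        rw [← Real.log_exp 1]
        apply Real.log_le_log (Real.exp_pos 1)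
        have := Real.exp_one_lt_d9
        have hV0 : (1 : ℝ) ≤ V := by exact_mod_cast hV1
        linarith
      have e3 : 0 ≤ C4 * (1 + Real.log (Real.log ((V : ℝ) + 3))) := mul_nonneg hC4 (by linarith)
      linarith
    have e1 : Real.log Y ^ Bf I ≤ (V : ℝ) := by
      calc Real.log Y ^ Bf I ≤ Real.log Y ^ B := pow_le_pow_right₀ hlogY0 (hBI I)
        _ ≤ L ^ B := pow_le_pow_left₀ hlogYp.le hlogY2 B
        _ ≤ V := hVge
    have e2 : (V : ℝ) ≤ Real.log Y ^ (B + 10) := by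
      have a1 : (L / 3) ^ (B + 10) ≤ Real.log Y ^ (B + 10) :=
        pow_le_pow_left₀ (by positivity) hlogY1 _
      refine le_trans (hVle.trans ?_) a1
      rw [div_pow, le_div_iff₀ (by positivity)]
      have a2 : L ^ (B + 10) = L ^ B * L ^ 10 := pow_add _ _ _
      have a3 : L ≤ L ^ 10 := by
        calc L = L ^ 1 := (pow_one L).symm
          _ ≤ L ^ 10 := pow_le_pow_right₀ (by linarith) (by norm_num)
      rw [a2]
      calc 2 * L ^ B * 3 ^ (B + 10) = L ^ B * (2 * 3 ^ (B + 10)) := by ring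
        _ ≤ L ^ B * L ^ 10 := mul_le_mul_of_nonneg_left (hLbig.trans a3) (by positivity)
    have hA := hCf I z Y V (fun k : {k // k ∈ I} => κ k) (ThI c κ u I)
      (3 / 4 * Real.log (Real.log Y) + C4 * (1 + Real.log (Real.log ((V : ℝ) + 3)))) hz hY3 e1 e2
      hw0 (fun k p hp h => hκp k p hp h) (ThI_sub c κ u I) (hP Y V I hY3 hV1 hI u hu)
    refine hA.trans ?_
    -- compute the right-hand side
    have f1 : Real.exp (3 / 4 * Real.log (Real.log Y) +
        C4 * (1 + Real.log (Real.log ((V : ℝ) + 3)))) =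
        Real.log Y ^ (3 / 4 : ℝ) * Real.exp (C4 * (1 + Real.log (Real.log ((V : ℝ) + 3)))) := by
      rw [Real.exp_add, Real.rpow_def_of_pos hlogYp, mul_comm (3 / 4 : ℝ)]
    have f2 : Real.log Y ^ (1 / 100 - 1 : ℝ) * Real.log Y ^ (3 / 4 : ℝ) =
        Real.log Y ^ (-(24 / 100) : ℝ) := by
      rw [← Real.rpow_add hlogYp]
      norm_num
    have f3 : Real.log Y ^ (-(24 / 100) : ℝ) ≤ 3 * L ^ (-(24 / 100) : ℝ) := by
      refine (Real.rpow_le_rpow_of_nonpos (by positivity : 0 < L / 3) hlogY1 (by norm_num)).trans ?_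
      rw [Real.div_rpow hL0.le (by norm_num), Real.rpow_neg (by norm_num : (0 : ℝ) ≤ 3), div_inv_eq_mul,
        mul_comm]
      apply mul_le_mul_of_nonneg_right _ (Real.rpow_nonneg hL0.le _)
      calc (3 : ℝ) ^ (24 / 100 : ℝ) ≤ 3 ^ (1 : ℝ) :=
            Real.rpow_le_rpow_of_exponent_le (by norm_num) (by norm_num)
        _ = 3 := Real.rpow_one 3
    have f4 : L ^ (-(24 / 100) : ℝ) * L ^ (1 / 100 : ℝ) = L ^ (-(23 / 100) : ℝ) := by
      rw [← Real.rpow_add hL0]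
      norm_num
    have g1 : Cf I * Y * Real.log Y ^ (1 / 100 - 1 : ℝ) *
        Real.exp (3 / 4 * Real.log (Real.log Y) + C4 * (1 + Real.log (Real.log ((V : ℝ) + 3)))) =
        Cf I * (Y * (Real.log Y ^ (-(24 / 100) : ℝ) *
          Real.exp (C4 * (1 + Real.log (Real.log ((V : ℝ) + 3)))))) := by
      rw [f1, ← f2]
      ring
    rw [g1]
    have g2 : Real.log Y ^ (-(24 / 100) : ℝ) *
          Real.exp (C4 * (1 + Real.log (Real.log ((V : ℝ) + 3)))) ≤ 3 * L ^ (-(23 / 100) : ℝ) := by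
      calc _ ≤ (3 * L ^ (-(24 / 100) : ℝ)) * L ^ (1 / 100 : ℝ) :=
            mul_le_mul f3 hEx (Real.exp_pos _).le (by positivity)
        _ = 3 * L ^ (-(23 / 100) : ℝ) := by rw [mul_assoc, f4]
    have g3 : 0 ≤ Y * (Real.log Y ^ (-(24 / 100) : ℝ) *
          Real.exp (C4 * (1 + Real.log (Real.log ((V : ℝ) + 3))))) := by positivity
    calc Cf I * (Y * (Real.log Y ^ (-(24 / 100) : ℝ) *
          Real.exp (C4 * (1 + Real.log (Real.log ((V : ℝ) + 3)))))) ≤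
          |Cf I| * (Y * (Real.log Y ^ (-(24 / 100) : ℝ) *
          Real.exp (C4 * (1 + Real.log (Real.log ((V : ℝ) + 3)))))) :=
          mul_le_mul_of_nonneg_right (le_abs_self _) g3
      _ ≤ |Cf I| * ((X / U) * (3 * L ^ (-(23 / 100) : ℝ))) := by
          apply mul_le_mul_of_nonneg_left _ (abs_nonneg _)
          exact mul_le_mul hYle g2 (by positivity) (by positivity)
      _ = 3 * |Cf I| * X * L ^ (-(23 / 100 : ℝ)) * ((U : ℕ) : ℝ)⁻¹ := by
          rw [div_eq_mul_inv]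
          ring
  -- sum of the terms
  have hsumI : ∀ I : Finset K, I.Nonempty → (∑ u ∈ UU z V c κ I,
      (cnt z (X / ∏ k, u k) V (fun k : {k // k ∈ I} => κ k) (ThI c κ u I) : ℝ)) ≤
        3 * |Cf I| * (X * L ^ (-(1 / 5 : ℝ))) := by
    intro I hI
    calc _ ≤ ∑ u ∈ UU z V c κ I, 3 * |Cf I| * X * L ^ (-(23 / 100 : ℝ)) *
          ((∏ k, u k : ℕ) : ℝ)⁻¹ := Finset.sum_le_sum fun u hu => hterm I hI u hu
      _ = 3 * |Cf I| * X * L ^ (-(23 / 100 : ℝ)) *
          ∑ u ∈ UU z V c κ I, ((∏ k, u k : ℕ) : ℝ)⁻¹ := by rw [Finset.mul_sum]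
      _ ≤ 3 * |Cf I| * X * L ^ (-(23 / 100 : ℝ)) * L ^ (1 / 100 : ℝ) := by
          apply mul_le_mul_of_nonneg_left _ (by positivity)
          refine (UU_sum c κ I hV1).trans ?_
          refine le_trans (pow_le_pow_left₀ ?_ (harm_le V _ L hlogV) _) hL2
          exact Finset.sum_nonneg fun n _ => by positivity
      _ = 3 * |Cf I| * (X * L ^ (-(22 / 100) : ℝ)) := by
          rw [mul_assoc (3 * |Cf I| * X), ← Real.rpow_add hL0]
          norm_num
          ring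
      _ ≤ 3 * |Cf I| * (X * L ^ (-(1 / 5 : ℝ))) := by
          apply mul_le_mul_of_nonneg_left _ (by positivity)
          apply mul_le_mul_of_nonneg_left _ hXpos.le
          exact Real.rpow_le_rpow_of_exponent_le (by linarith) (by norm_num)
  have hmainR : (cntS z X κ c : ℝ) ≤ (V : ℝ) ^ N +
      ∑ I ∈ univ.filter (fun I : Finset K => I.Nonempty), ∑ u ∈ UU z V c κ I,
        (cnt z (X / ∏ k, u k) V (fun k : {k // k ∈ I} => κ k) (ThI c κ u I) : ℝ) := by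
    exact_mod_cast hmain
  refine hmainR.trans ?_
  have hlast : ∑ I ∈ univ.filter (fun I : Finset K => I.Nonempty), ∑ u ∈ UU z V c κ I,
        (cnt z (X / ∏ k, u k) V (fun k : {k // k ∈ I} => κ k) (ThI c κ u I) : ℝ) ≤
        (3 * ∑ I, |Cf I|) * (X * L ^ (-(1 / 5 : ℝ))) := by
    calc _ ≤ ∑ I ∈ univ.filter (fun I : Finset K => I.Nonempty),
          3 * |Cf I| * (X * L ^ (-(1 / 5 : ℝ))) :=
          Finset.sum_le_sum fun I hI => hsumI I (Finset.mem_filter.mp hI).2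
      _ ≤ ∑ I : Finset K, 3 * |Cf I| * (X * L ^ (-(1 / 5 : ℝ))) :=
          Finset.sum_le_sum_of_subset_of_nonneg (Finset.filter_subset _ _)
            fun I _ _ => by positivity
      _ = (3 * ∑ I, |Cf I|) * (X * L ^ (-(1 / 5 : ℝ))) := by
          rw [← Finset.sum_mul, ← Finset.mul_sum]
  have hfirst : (V : ℝ) ^ N ≤ X * L ^ (-(1 / 5 : ℝ)) := hVN.trans hX4
  calc _ ≤ X * L ^ (-(1 / 5 : ℝ)) + (3 * ∑ I, |Cf I|) * (X * L ^ (-(1 / 5 : ℝ))) :=
        add_le_add hfirst hlast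
    _ = (1 + 3 * ∑ I, |Cf I|) * X * L ^ (-(1 / 5 : ℝ)) := by ring

end K

theorem fins (h1 : ABS1) (h2 : REDS) (h3 : REGS) (h4 : PRS) : FINS := by
  classical
  intro K _ _ α β hK hne hsq
  obtain ⟨z1, hz1⟩ := h2 K α β (by omega) hne
  obtain ⟨z2, hz2⟩ := h4 K (cc α β) hK hne hsq
  set z := max (max z1 z2) 2 with hz
  have hz1' : z1 ≤ z := (le_max_left _ _).trans (le_max_left _ _)
  have hz2' : z2 ≤ z := (le_max_right _ _).trans (le_max_left _ _)
  have hz3 : 2 ≤ z := le_max_right _ _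
  obtain ⟨C4, hC4, hP⟩ := hz2 z hz2'
  have hkey : ∀ κ : K → ℤ, ∃ C : ℝ, 0 ≤ C ∧ (κ ∈ Fintype.piFinset (fun _ : K => EE z) →
      ∀ᶠ X : ℕ in atTop, (cntS z X κ (cc α β) : ℝ) ≤ C * X * (Real.log X) ^ (-(1 / 5 : ℝ))) := by
    intro κ
    by_cases hκ : κ ∈ Fintype.piFinset (fun _ : K => EE z)
    · obtain ⟨C, hC0, hC⟩ := key h1 h3 (cc α β) z hz3 C4 hC4 κ hκ (hP κ hκ)
      exact ⟨C, hC0, fun _ => hC⟩
    · exact ⟨0, le_rfl, fun h => absurd h hκ⟩
  choose Cκ hC0 hCκ using hkey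
  set C1 : ℝ := (EE z).card * ∑ κ ∈ Fintype.piFinset (fun _ : K => EE z), Cκ κ with hC1
  have hC10 : 0 ≤ C1 := mul_nonneg (Nat.cast_nonneg _) (Finset.sum_nonneg fun κ _ => hC0 κ)
  have hev : ∀ᶠ X : ℕ in atTop,
      ({d : ℤ | d.natAbs ≤ X ∧ Squarefree d ∧ BadS α β d}.ncard : ℝ) ≤
        C1 * X * (Real.log X) ^ (-(1 / 5 : ℝ)) := by
    have hall : ∀ᶠ X : ℕ in atTop, ∀ κ ∈ Fintype.piFinset (fun _ : K => EE z),
        (cntS z X κ (cc α β) : ℝ) ≤ Cκ κ * X * (Real.log X) ^ (-(1 / 5 : ℝ)) := by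
      rw [Filter.eventually_all_finset]
      exact fun κ hκ => hCκ κ hκ
    filter_upwards [hall] with X hX
    have e1 := hz1 z hz1' X
    have e2 : ({d : ℤ | d.natAbs ≤ X ∧ Squarefree d ∧ BadS α β d}.ncard : ℝ) ≤
        (EE z).card * ∑ κ ∈ Fintype.piFinset (fun _ : K => EE z), (cntS z X κ (cc α β) : ℝ) := by
      exact_mod_cast e1
    refine e2.trans ?_
    calc _ ≤ ((EE z).card : ℝ) * ∑ κ ∈ Fintype.piFinset (fun _ : K => EE z),
          Cκ κ * X * (Real.log X) ^ (-(1 / 5 : ℝ)) :=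
          mul_le_mul_of_nonneg_left (Finset.sum_le_sum hX) (Nat.cast_nonneg _)
      _ = C1 * X * (Real.log X) ^ (-(1 / 5 : ℝ)) := by
          rw [← Finset.sum_mul, ← Finset.sum_mul, hC1]
          ring
  obtain ⟨X0, hX0⟩ := eventually_atTop.mp hev
  set D : ℝ := (Real.log (X0 + 3)) ^ (1 / 5 : ℝ) with hD
  have hD0 : 0 ≤ D := Real.rpow_nonneg (Real.log_nonneg (by
    have : (0 : ℝ) ≤ X0 := Nat.cast_nonneg _
    linarith)) _
  refine ⟨C1 + 3 * D, fun X hX3 => ?_⟩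
  have hX3' : (3 : ℝ) ≤ X := by exact_mod_cast hX3
  have hlog : 0 < Real.log (X : ℝ) := Real.log_pos (by linarith)
  have hlp : 0 < Real.log (X : ℝ) ^ (-(1 / 5 : ℝ)) := Real.rpow_pos_of_pos hlog _
  rcases le_or_gt X0 X with h | h
  · refine (hX0 X h).trans ?_
    have : 0 ≤ 3 * D * X * (Real.log X) ^ (-(1 / 5 : ℝ)) := by positivity
    nlinarith
  · have e1 : {d : ℤ | d.natAbs ≤ X ∧ Squarefree d ∧ BadS α β d} ⊆
        (Finset.Icc (-(X : ℤ)) X : Finset ℤ) := by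
      intro d hd
      have h5 : d.natAbs ≤ X := hd.1
      rw [Finset.coe_Icc, Set.mem_Icc]
      omega
    have e2 := Set.ncard_le_ncard e1 (Finset.finite_toSet _)
    rw [Set.ncard_coe_finset, Int.card_Icc] at e2
    have e3 : ({d : ℤ | d.natAbs ≤ X ∧ Squarefree d ∧ BadS α β d}.ncard : ℝ) ≤ 3 * X := by
      have : {d : ℤ | d.natAbs ≤ X ∧ Squarefree d ∧ BadS α β d}.ncard ≤ 3 * X := by omega
      exact_mod_cast this
    refine e3.trans ?_
    have e4 : 1 ≤ D * Real.log (X : ℝ) ^ (-(1 / 5 : ℝ)) := by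
      rw [Real.rpow_neg hlog.le, ← div_eq_mul_inv, le_div_iff₀ (Real.rpow_pos_of_pos hlog _),
        one_mul, hD]
      apply Real.rpow_le_rpow hlog.le _ (by norm_num)
      apply Real.log_le_log (by linarith)
      have : (X : ℝ) ≤ X0 := by exact_mod_cast h.le
      linarith
    have e5 : 0 ≤ C1 * X * (Real.log X) ^ (-(1 / 5 : ℝ)) := by positivity
    have e6 : 3 * (X : ℝ) * 1 ≤ 3 * X * (D * Real.log (X : ℝ) ^ (-(1 / 5 : ℝ))) :=
      mul_le_mul_of_nonneg_left e4 (by positivity)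
    calc 3 * (X : ℝ) = 3 * X * 1 := by ring
      _ ≤ 3 * X * (D * Real.log (X : ℝ) ^ (-(1 / 5 : ℝ))) := e6
      _ ≤ (C1 + 3 * D) * X * (Real.log X) ^ (-(1 / 5 : ℝ)) := by nlinarith

end Pool.Agent.W460.TW
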